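import Pool.Agent.H25.EA.Defs

/-!
# Common part of the exchange modules: recolouring, routing
-/

set_option autoImplicit false
set_option linter.unusedSectionVars false

namespace Pool.Agent.H72.EAx

open Finset Pool.Agent.H25.EA

variable {V : Type*} [DecidableEq V]
variable {μ : V → V → ℕ} {s b : ℕ} {U : Finset V} {f : V → ℕ} {𝒜 : Finset ℕ} {r : ℕ}

/-! ### basic facts (private copies of module A) -/

theorem ee_mono0 {S T : Finset V} {v : V} (hST : S ⊆ T) : ee μ v S ≤ ee μ v T :=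
  Finset.sum_le_sum_of_subset hST

theorem Ac.mono0 {S T : Finset V} (h : Ac μ T) (hST : S ⊆ T) : Ac μ S :=
  fun K hK hne => h K (hK.trans hST) hne

theorem Ac.insert0 {S : Finset V} {v : V} (hμ : MG μ) (h : Ac μ S) (hv : ee μ v S ≤ 1) :
    Ac μ (insert v S) := by
  intro T hT hne
  by_cases hvT : v ∈ T
  · refine ⟨v, hvT, ?_⟩
    have h1 : ee μ v T = ee μ v (T.erase v) := by
      unfold ee
      rw [← Finset.add_sum_erase _ _ hvT, hμ.diag, zero_add]
    rw [h1]
    refine (ee_mono0 ?_).trans hv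
    intro w hw
    rw [Finset.mem_erase] at hw
    have := hT hw.2
    rw [Finset.mem_insert] at this
    exact this.resolve_left hw.1
  · refine h T ?_ hne
    intro w hw
    have := hT hw
    rw [Finset.mem_insert] at this
    rcases this with rfl | h
    · exact absurd hw hvT
    · exact h

theorem two_le_of_not_ac0 {S : Finset V} {v : V} (hμ : MG μ) (h : Ac μ S)
    (hv : ¬ Ac μ (insert v S)) : 2 ≤ ee μ v S := by
  by_contra hlt
  exact hv (Ac.insert0 hμ h (by omega))

/-! ### degrees in `B` -/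

theorem mem_cl {c : ℕ} {v : V} : v ∈ cl U f c ↔ v ∈ U ∧ f v = c := by
  simp [cl]

theorem mem_BB {v : V} : v ∈ BB U f 𝒜 ↔ v ∈ U ∧ f v ∉ 𝒜 := by
  simp [BB]

theorem mem_AA {v : V} : v ∈ AA U f 𝒜 ↔ v ∈ U ∧ f v ∈ 𝒜 := by
  simp [AA]

theorem ee_AA (v : V) : ee μ v (AA U f 𝒜) = ∑ c ∈ 𝒜, ee μ v (cl U f c) := by
  unfold ee
  have hmap : ∀ x ∈ AA U f 𝒜, f x ∈ 𝒜 := fun x hx => (mem_AA.1 hx).2
  rw [← Finset.sum_fiberwise_of_maps_to hmap]
  refine Finset.sum_congr rfl ?_
  intro c hc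
  congr 1
  ext x
  simp only [Finset.mem_filter, mem_AA, mem_cl]
  constructor
  · rintro ⟨⟨h1, _⟩, h2⟩; exact ⟨h1, h2⟩
  · rintro ⟨h1, h2⟩; exact ⟨⟨h1, h2 ▸ hc⟩, h2⟩

theorem ee_U (v : V) : ee μ v U = ee μ v (AA U f 𝒜) + ee μ v (BB U f 𝒜) := by
  unfold ee AA BB
  rw [← Finset.sum_filter_add_sum_filter_not U (fun v => f v ∈ 𝒜)]

theorem two_le_cl (h : Setup μ s b U f 𝒜 r) {y : V} (hy : y ∈ BB U f 𝒜) {c : ℕ}
    (hc : c ∈ 𝒜) : 2 ≤ ee μ y (cl U f c) :=
  two_le_of_not_ac0 h.mg (h.ac c hc) (h.blocked y hy c hc)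

theorem BB_deg (h : Setup μ s b U f 𝒜 r) {y : V} (hy : y ∈ BB U f 𝒜) :
    ee μ y (BB U f 𝒜) + 2 ≤ 2 * b := by
  have h1 := h.deg y (mem_BB.1 hy).1
  rw [ee_U (f := f) (𝒜 := 𝒜), ee_AA] at h1
  have h2 : ∑ _c ∈ 𝒜, 2 ≤ ∑ c ∈ 𝒜, ee μ y (cl U f c) :=
    Finset.sum_le_sum fun c hc => two_le_cl h hy hc
  rw [Finset.sum_const, smul_eq_mul] at h2
  omega

/-! ### recolouring -/

/-- Move the vertices of `M` to the classes given by `δ`, and remove the vertices of `Z`. -/
theorem recolour (h : Setup μ s b U f 𝒜 r) (M Z : Finset V) (δ : V → ℕ) (hM : M ⊆ U)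
    (hδ : ∀ v ∈ M, δ v ∈ 𝒜)
    (hcl : ∀ c ∈ 𝒜, ((cl U f c \ (M ∪ Z)) ∪ M.filter (fun v => δ v = c)).card = s ∧
      Ac μ ((cl U f c \ (M ∪ Z)) ∪ M.filter (fun v => δ v = c)))
    (hdeg : ∀ v ∈ U \ ((AA U f 𝒜 \ Z) ∪ M),
      ee μ v (U \ ((AA U f 𝒜 \ Z) ∪ M)) + 2 ≤ 2 * b) : False := by
  classical
  set A' := (AA U f 𝒜 \ Z) ∪ M with hA'
  set f' : V → ℕ := fun v => if v ∈ M then δ v else f v with hf'
  have hcls : ∀ c ∈ 𝒜, cl A' f' c = (cl U f c \ (M ∪ Z)) ∪ M.filter (fun v => δ v = c) := by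
    intro c hc
    ext v
    simp only [mem_cl, hA', hf', Finset.mem_union, Finset.mem_sdiff, mem_AA, Finset.mem_filter]
    by_cases hvM : v ∈ M
    · simp [hvM]
    · simp only [hvM, or_false, if_false, false_or, false_and]
      constructor
      · rintro ⟨⟨⟨h1, _⟩, h3⟩, h4⟩; exact ⟨⟨h1, h4⟩, h3⟩
      · rintro ⟨⟨h1, h4⟩, h3⟩; exact ⟨⟨⟨h1, h4 ▸ hc⟩, h3⟩, h4⟩
  have hA'U : A' ⊆ U := by
    intro v hv
    rw [hA', Finset.mem_union, Finset.mem_sdiff, mem_AA] at hv
    rcases hv with ⟨⟨h1, _⟩, _⟩ | h1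
    · exact h1
    · exact hM h1
  have hcol : ∀ v ∈ A', f' v ∈ 𝒜 := by
    intro v hv
    rw [hA', Finset.mem_union, Finset.mem_sdiff, mem_AA] at hv
    by_cases hvM : v ∈ M
    · simp only [hf', hvM, if_true]; exact hδ v hvM
    · simp only [hf', hvM, if_false]
      rcases hv with ⟨⟨_, h2⟩, _⟩ | h1
      · exact h2
      · exact absurd h1 hvM
  have hcardA : A'.card = 𝒜.card * s := by
    rw [Finset.card_eq_sum_card_fiberwise hcol]
    have : ∀ c ∈ 𝒜, (A'.filter (fun v => f' v = c)).card = s := by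
      intro c hc
      have := hcls c hc
      unfold cl at this
      rw [this]
      exact (hcl c hc).1
    rw [Finset.sum_congr rfl this, Finset.sum_const, smul_eq_mul]
  refine h.noEC A' hA'U hcardA hdeg ⟨f', hcol, ?_⟩
  intro c hc
  rw [hcls c hc]
  exact hcl c hc

/-! ### routing -/

/-- A routing of the tokens `P` through the classes `I` to the classes `D`: the vertices of `M₀`
(at most one from each class of `I`) and the tokens are moved by `δ`. -/
structure Route (μ : V → V → ℕ) (U : Finset V) (f : V → ℕ) (P : Finset V) (I D : Finset ℕ)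
    (M₀ : Finset V) (δ : V → ℕ) : Prop where
  sub : M₀ ⊆ U
  col : ∀ v ∈ M₀, f v ∈ I
  dest : ∀ v ∈ M₀ ∪ P, δ v ∈ I ∪ D
  mov : ∀ v ∈ M₀ ∪ P, mov μ U f v (δ v)
  ne : ∀ v ∈ M₀, δ v ≠ f v
  injf : ∀ u ∈ M₀, ∀ v ∈ M₀, f u = f v → u = v
  inj : ∀ u ∈ M₀ ∪ P, ∀ v ∈ M₀ ∪ P, δ u = δ v → u = v
  bal : ∀ c ∈ I, (∃ v ∈ M₀, f v = c) ↔ (∃ v ∈ M₀ ∪ P, δ v = c)
  full : ∀ c ∈ D, ∃ v ∈ M₀ ∪ P, δ v = c

open Classical in
/-- Hall's theorem gives a routing. -/
theorem route_of_hall (P : Finset V) (I D : Finset ℕ) (hID : Disjoint I D)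
    (hPI : ∀ p ∈ P, f p ∉ I) (hcard : P.card = D.card)
    (hHall : ∀ R ⊆ I ∪ D, R.card ≤ {u ∈ I | u ∈ R ∨ ∃ c ∈ R, arc μ U f u c}.card +
      {p ∈ P | ∃ c ∈ R, mov μ U f p c}.card) :
    ∃ M₀ δ, Route μ U f P I D M₀ δ := by
  set t : {c // c ∈ I ∪ D} → Finset (V ⊕ ℕ) := fun c =>
    ({p ∈ P | mov μ U f p c}).disjSum {u ∈ I | u = c ∨ arc μ U f u c} with ht
  have hall : ∀ S : Finset {c // c ∈ I ∪ D}, S.card ≤ (S.biUnion t).card := by
    intro S
    have h1 := hHall (S.map (Function.Embedding.subtype _)) (by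
      intro c hc
      rw [Finset.mem_map] at hc
      obtain ⟨c', _, rfl⟩ := hc
      exact c'.2)
    rw [Finset.card_map] at h1
    have h2 : S.biUnion t = ({p ∈ P | ∃ c ∈ S.map (Function.Embedding.subtype _),
        mov μ U f p c}).disjSum {u ∈ I | u ∈ S.map (Function.Embedding.subtype _) ∨
          ∃ c ∈ S.map (Function.Embedding.subtype _), arc μ U f u c} := by
      ext e
      rcases e with p | u
      · simp only [ht, Finset.mem_biUnion, Finset.inl_mem_disjSum, Finset.mem_filter,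
          Finset.mem_map, Function.Embedding.subtype_apply]
        constructor
        · rintro ⟨c, hc, hp, hm⟩; exact ⟨hp, c, ⟨c, hc, rfl⟩, hm⟩
        · rintro ⟨hp, _, ⟨c, hc, rfl⟩, hm⟩; exact ⟨c, hc, hp, hm⟩
      · simp only [ht, Finset.mem_biUnion, Finset.inr_mem_disjSum, Finset.mem_filter,
          Finset.mem_map, Function.Embedding.subtype_apply]
        constructor
        · rintro ⟨c, hc, hp, rfl | hm⟩
          · exact ⟨hp, Or.inl ⟨c, hc, rfl⟩⟩
          · exact ⟨hp, Or.inr ⟨c, ⟨c, hc, rfl⟩, hm⟩⟩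
        · rintro ⟨hp, ⟨c, hc, rfl⟩ | ⟨_, ⟨c, hc, rfl⟩, hm⟩⟩
          · exact ⟨c, hc, hp, Or.inl rfl⟩
          · exact ⟨c, hc, hp, Or.inr hm⟩
    rw [h2, Finset.card_disjSum]
    omega
  obtain ⟨g, hginj, hg⟩ :=
    (Finset.all_card_le_biUnion_card_iff_exists_injective t).1 hall
  have hgim : Finset.univ.image g = P.disjSum I := by
    apply Finset.eq_of_subset_of_card_le
    · intro e he
      rw [Finset.mem_image] at he
      obtain ⟨c, _, rfl⟩ := he
      have := hg c
      revert this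
      rcases g c with p | u
      · simp only [ht, Finset.inl_mem_disjSum, Finset.mem_filter]
        exact fun h => h.1
      · simp only [ht, Finset.inr_mem_disjSum, Finset.mem_filter]
        exact fun h => h.1
    · rw [Finset.card_disjSum, Finset.card_image_of_injective _ hginj, Finset.card_univ,
        Fintype.card_coe, Finset.card_union_of_disjoint hID]
      omega
  have hsurj : ∀ e ∈ P.disjSum I, ∃ c : ℕ, ∃ hc : c ∈ I ∪ D, g ⟨c, hc⟩ = e := by
    intro e he
    rw [← hgim, Finset.mem_image] at he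
    obtain ⟨c, _, rfl⟩ := he
    exact ⟨c.1, c.2, rfl⟩
  choose! k hk using hsurj
  have hkinj : ∀ e ∈ P.disjSum I, ∀ e' ∈ P.disjSum I, k e = k e' → e = e' := by
    intro e he e' he' hee
    obtain ⟨h1, h2⟩ := hk e he
    obtain ⟨h3, h4⟩ := hk e' he'
    rw [← h2, ← h4]
    congr 1
    exact Subtype.ext hee
  have hksurj : ∀ c ∈ I ∪ D, ∃ e ∈ P.disjSum I, k e = c := by
    intro c hc
    have h1 : g ⟨c, hc⟩ ∈ P.disjSum I := by
      rw [← hgim]; exact Finset.mem_image_of_mem _ (Finset.mem_univ _)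
    obtain ⟨h2, h3⟩ := hk _ h1
    exact ⟨_, h1, congrArg Subtype.val (hginj h3)⟩
  have hkP : ∀ p ∈ P, mov μ U f p (k (Sum.inl p)) := by
    intro p hp
    have hp' : Sum.inl p ∈ P.disjSum I := by simpa using hp
    obtain ⟨h1, h2⟩ := hk _ hp'
    have h3 := hg ⟨_, h1⟩
    rw [h2] at h3
    simp only [ht, Finset.inl_mem_disjSum, Finset.mem_filter] at h3
    exact h3.2
  have hkI : ∀ u ∈ I, u = k (Sum.inr u) ∨ arc μ U f u (k (Sum.inr u)) := by
    intro u hu
    have hu' : Sum.inr u ∈ P.disjSum I := by simpa using hu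
    obtain ⟨h1, h2⟩ := hk _ hu'
    have h3 := hg ⟨_, h1⟩
    rw [h2] at h3
    simp only [ht, Finset.inr_mem_disjSum, Finset.mem_filter] at h3
    exact h3.2
  have hex : ∀ u ∈ {u ∈ I | u ≠ k (Sum.inr u)}, ∃ v, v ∈ cl U f u ∧
      mov μ U f v (k (Sum.inr u)) := by
    intro u hu
    rw [Finset.mem_filter] at hu
    rcases hkI u hu.1 with h | h
    · exact absurd h hu.2
    · obtain ⟨_, v, hv⟩ := h
      exact ⟨v, hv⟩
  choose ch hch using hex
  set M₀ : Finset V := ({u ∈ I | u ≠ k (Sum.inr u)}.attach).image (fun u => ch u.1 u.2) with hM₀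
  set δ : V → ℕ := fun v => if v ∈ P then k (Sum.inl v) else k (Sum.inr (f v)) with hδ
  have hmem : ∀ v ∈ M₀, v ∈ U ∧ f v ∈ I ∧ v ∉ P ∧ f v ≠ k (Sum.inr (f v)) ∧
      δ v = k (Sum.inr (f v)) ∧ mov μ U f v (k (Sum.inr (f v))) ∧
      ∃ hu : f v ∈ {u ∈ I | u ≠ k (Sum.inr u)}, v = ch (f v) hu := by
    intro v hv
    rw [hM₀, Finset.mem_image] at hv
    obtain ⟨⟨u, hu⟩, _, rfl⟩ := hv
    have h1 := (hch u hu).1
    have h2 := (hch u hu).2
    simp only
    rw [mem_cl] at h1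
    have h3 := hu
    rw [Finset.mem_filter] at h3
    have h4 : ch u hu ∉ P := by
      intro hP
      apply hPI _ hP
      rw [h1.2]; exact h3.1
    refine ⟨h1.1, ?_, h4, ?_, ?_, ?_, ?_⟩
    · rw [h1.2]; exact h3.1
    · rw [h1.2]; exact h3.2
    · simp only [hδ, if_neg h4]
    · rw [h1.2]; exact h2
    · refine ⟨by rw [h1.2]; exact hu, ?_⟩
      congr 1
      exact h1.2.symm
  have hmem' : ∀ u ∈ I, u ≠ k (Sum.inr u) → ∃ v ∈ M₀, f v = u := by
    intro u hu hne
    have hu' : u ∈ {u ∈ I | u ≠ k (Sum.inr u)} := Finset.mem_filter.2 ⟨hu, hne⟩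
    refine ⟨ch u hu', ?_, (mem_cl.1 (hch u hu').1).2⟩
    rw [hM₀, Finset.mem_image]
    exact ⟨⟨u, hu'⟩, Finset.mem_attach _ _, rfl⟩
  have hδP : ∀ v ∈ P, δ v = k (Sum.inl v) := by
    intro v hv; simp only [hδ, if_pos hv]
  -- the token of a moved vertex
  set tok : V → V ⊕ ℕ := fun v => if v ∈ P then Sum.inl v else Sum.inr (f v) with htok
  have htokm : ∀ v ∈ M₀ ∪ P, tok v ∈ P.disjSum I ∧ δ v = k (tok v) := by
    intro v hv
    rw [Finset.mem_union] at hv
    by_cases hvP : v ∈ P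
    · simp only [htok, hδ, if_pos hvP]
      simpa using hvP
    · have hv' := hmem v (hv.resolve_right hvP)
      simp only [htok, hδ, if_neg hvP]
      simpa using hv'.2.1
  have hexi : ∀ c ∈ I ∪ D, c ≠ k (Sum.inr c) ∨ c ∉ I → ∃ v ∈ M₀ ∪ P, δ v = c := by
    intro c hc hne
    obtain ⟨e, he, hke⟩ := hksurj c hc
    rcases e with p | u
    · have hp : p ∈ P := by simpa using he
      exact ⟨p, Finset.mem_union_right _ hp, by rw [hδP p hp, hke]⟩
    · have hu : u ∈ I := by simpa using he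
      have hne' : u ≠ k (Sum.inr u) := by
        intro hu'
        rw [hke] at hu'
        subst hu'
        rcases hne with h | h
        · exact h hke.symm
        · exact h hu
      obtain ⟨v, hv, hfv⟩ := hmem' u hu hne'
      refine ⟨v, Finset.mem_union_left _ hv, ?_⟩
      rw [(hmem v hv).2.2.2.2.1, hfv, hke]
  refine ⟨M₀, δ, ?_, ?_, ?_, ?_, ?_, ?_, ?_, ?_, ?_⟩
  · exact fun v hv => (hmem v hv).1
  · exact fun v hv => (hmem v hv).2.1
  · intro v hv
    obtain ⟨h1, h2⟩ := htokm v hv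
    rw [h2]
    exact (hk _ h1).1
  · intro v hv
    rw [Finset.mem_union] at hv
    by_cases hvP : v ∈ P
    · rw [hδP v hvP]; exact hkP v hvP
    · have hv' := hmem v (hv.resolve_right hvP)
      rw [hv'.2.2.2.2.1]
      exact hv'.2.2.2.2.2.1
  · intro v hv
    rw [(hmem v hv).2.2.2.2.1]
    exact (hmem v hv).2.2.2.1.symm
  · intro u hu v hv huv
    obtain ⟨hu1, hu2⟩ := (hmem u hu).2.2.2.2.2.2
    obtain ⟨hv1, hv2⟩ := (hmem v hv).2.2.2.2.2.2
    rw [hu2, hv2]
    congr 1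
  · intro u hu v hv huv
    obtain ⟨h1, h2⟩ := htokm u hu
    obtain ⟨h3, h4⟩ := htokm v hv
    rw [h2, h4] at huv
    have h5 := hkinj _ h1 _ h3 huv
    simp only [htok] at h5
    by_cases huP : u ∈ P
    · by_cases hvP : v ∈ P
      · rw [if_pos huP, if_pos hvP] at h5
        exact Sum.inl.inj h5
      · rw [if_pos huP, if_neg hvP] at h5
        exact absurd h5 (by simp)
    · by_cases hvP : v ∈ P
      · rw [if_neg huP, if_pos hvP] at h5
        exact absurd h5 (by simp)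
      · rw [if_neg huP, if_neg hvP] at h5
        have h6 := Sum.inr.inj h5
        have hu' := (Finset.mem_union.1 hu).resolve_right huP
        have hv' := (Finset.mem_union.1 hv).resolve_right hvP
        obtain ⟨hu1, hu2⟩ := (hmem u hu').2.2.2.2.2.2
        obtain ⟨hv1, hv2⟩ := (hmem v hv').2.2.2.2.2.2
        rw [hu2, hv2]
        congr 1
  · intro c hc
    constructor
    · rintro ⟨v, hv, hfv⟩
      have hv' := hmem v hv
      apply hexi c (Finset.mem_union_left _ hc)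
      left
      rw [← hfv]; exact hv'.2.2.2.1
    · rintro ⟨v, hv, hδv⟩
      by_contra hno
      have hkc : c = k (Sum.inr c) := by
        by_contra hne
        exact hno (hmem' c hc hne)
      obtain ⟨h1, h2⟩ := htokm v hv
      have h3 : k (tok v) = k (Sum.inr c) := by rw [← h2, hδv]; exact hkc
      have h4 := hkinj _ h1 _ (by simpa using hc) h3
      by_cases hvP : v ∈ P
      · simp only [htok, if_pos hvP] at h4
        exact absurd h4 (by simp)
      · simp only [htok, if_neg hvP] at h4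
        have h5 := Sum.inr.inj h4
        have hv' := (Finset.mem_union.1 hv).resolve_right hvP
        exact hno ⟨v, hv', h5⟩
  · intro c hc
    apply hexi c (Finset.mem_union_right _ hc)
    right
    exact fun hcI => (Finset.disjoint_left.1 hID hcI) hc

open Classical in
/-- Routing of one vertex `q`. -/
theorem route_one {𝒮 : Finset ℕ} (hr : r ∈ 𝒜) (hNo : NoCl (arc μ U f) 𝒜 r 𝒮)
    (hrS : r ∉ 𝒮) {q : V} (hq : f q ∈ 𝒮) (hY : ∃ Y ∈ 𝒜, Y ∉ 𝒮 ∧ mov μ U f q Y) :
    ∃ M₀ δ, Route μ U f {q} (𝒜 \ insert r 𝒮) {r} M₀ δ := by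
  apply route_of_hall
  · rw [Finset.disjoint_singleton_right]
    simp
  · intro p hp
    rw [Finset.mem_singleton] at hp
    subst hp
    simp [hq]
  · simp
  · intro R hR
    by_contra hlt
    push Not at hlt
    have hsub : R.erase r ⊆ {u ∈ 𝒜 \ insert r 𝒮 | u ∈ R ∨ ∃ c ∈ R, arc μ U f u c} := by
      intro u hu
      rw [Finset.mem_erase] at hu
      rw [Finset.mem_filter]
      refine ⟨?_, Or.inl hu.2⟩
      have := hR hu.2
      rw [Finset.mem_union, Finset.mem_singleton] at this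
      exact this.resolve_right hu.1
    have hle := Finset.card_le_card hsub
    have hrR : r ∈ R := by
      by_contra hrR
      rw [Finset.erase_eq_of_notMem hrR] at hle
      omega
    have hce := Finset.card_erase_add_one hrR
    have heq : R.erase r = {u ∈ 𝒜 \ insert r 𝒮 | u ∈ R ∨ ∃ c ∈ R, arc μ U f u c} :=
      Finset.eq_of_subset_of_card_le hsub (by omega)
    have hq0 : ({p ∈ ({q} : Finset V) | ∃ c ∈ R, mov μ U f p c}).card = 0 := by omega
    rw [Finset.card_eq_zero, Finset.filter_eq_empty_iff] at hq0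
    have hq1 := hq0 (Finset.mem_singleton_self q)
    obtain ⟨Y, hY1, hY2, hY3⟩ := hY
    have hYR : Y ∉ R := fun h => hq1 ⟨Y, h, hY3⟩
    obtain ⟨x, hx, z, hz, hzK, hzS, harc⟩ := hNo ((𝒜 \ insert r 𝒮) \ R)
      (by intro c hc; simp only [Finset.mem_sdiff] at hc; exact hc.1.1)
      (by
        rw [Finset.disjoint_left]
        intro c hc hc'
        simp only [Finset.mem_sdiff, Finset.mem_insert, not_or] at hc
        exact hc.1.2.2 hc')
      (by simp)
      ⟨Y, by
        simp only [Finset.mem_sdiff, Finset.mem_insert, not_or]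
        refine ⟨⟨hY1, ?_, hY2⟩, hYR⟩
        rintro rfl
        exact hYR hrR⟩
    have hzR : z ∈ R := by
      by_contra hzR
      apply hzK
      simp only [Finset.mem_sdiff, Finset.mem_insert, not_or]
      refine ⟨⟨hz, ?_, hzS⟩, hzR⟩
      rintro rfl
      exact hzR hrR
    rw [Finset.mem_sdiff] at hx
    have : x ∈ R.erase r := by
      rw [heq, Finset.mem_filter]
      exact ⟨hx.1, Or.inr ⟨z, hzR, harc⟩⟩
    exact hx.2 (Finset.mem_of_mem_erase this)

/-! ### the classes after a routing -/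

namespace Route

variable {P M₀ : Finset V} {I D : Finset ℕ} {δ : V → ℕ}

/-- at most one vertex arrives at a class -/
theorem filter_eq (h : Route μ U f P I D M₀ δ) {c : ℕ} {m : V} (hm : m ∈ M₀ ∪ P)
    (hc : δ m = c) : (M₀ ∪ P).filter (fun v => δ v = c) = {m} := by
  ext v
  rw [Finset.mem_filter, Finset.mem_singleton]
  constructor
  · rintro ⟨h1, h2⟩; exact h.inj v h1 m hm (h2.trans hc.symm)
  · rintro rfl; exact ⟨hm, hc⟩

/-- an intermediate class after the routing -/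
theorem class_I (h : Route μ U f P I D M₀ δ) {c : ℕ} (hc : c ∈ I) (hP : ∀ p ∈ P, f p ≠ c)
    (hac : Ac μ (cl U f c)) :
    ((cl U f c \ M₀) ∪ (M₀ ∪ P).filter (fun v => δ v = c)).card = (cl U f c).card ∧
      Ac μ ((cl U f c \ M₀) ∪ (M₀ ∪ P).filter (fun v => δ v = c)) := by
  by_cases hex : ∃ v ∈ M₀, f v = c
  · obtain ⟨u, hu, hfu⟩ := hex
    obtain ⟨m, hm, hδm⟩ := (h.bal c hc).1 ⟨u, hu, hfu⟩
    rw [h.filter_eq hm hδm]
    have hmc : m ∉ cl U f c := by
      intro hmc
      rw [mem_cl] at hmc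
      rw [Finset.mem_union] at hm
      rcases hm with hm | hm
      · exact h.ne m hm (hδm.trans hmc.2.symm)
      · exact hP m hm hmc.2
    have h1 : cl U f c \ M₀ = (cl U f c).erase u := by
      ext v
      rw [Finset.mem_sdiff, Finset.mem_erase]
      constructor
      · rintro ⟨h1, h2⟩
        refine ⟨?_, h1⟩
        rintro rfl
        exact h2 hu
      · rintro ⟨h1, h2⟩
        refine ⟨h2, fun hv => h1 (h.injf v hv u hu ?_)⟩
        rw [(mem_cl.1 h2).2, hfu]
    have hucl : u ∈ cl U f c := mem_cl.2 ⟨h.sub hu, hfu⟩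
    rw [h1]
    constructor
    · rw [Finset.card_union_of_disjoint, Finset.card_singleton, Finset.card_erase_add_one hucl]
      rw [Finset.disjoint_singleton_right]
      exact fun h => hmc (Finset.mem_of_mem_erase h)
    · have hmov := h.mov m hm
      rw [hδm] at hmov
      refine Ac.mono0 hmov ?_
      intro v hv
      rw [Finset.mem_union, Finset.mem_singleton] at hv
      rw [Finset.mem_insert]
      rcases hv with hv | hv
      · exact Or.inr (Finset.mem_of_mem_erase hv)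
      · exact Or.inl hv
  · have hno : ¬ ∃ v ∈ M₀ ∪ P, δ v = c := fun h' => hex ((h.bal c hc).2 h')
    have h1 : (M₀ ∪ P).filter (fun v => δ v = c) = ∅ := by
      rw [Finset.filter_eq_empty_iff]
      intro v hv hδv
      exact hno ⟨v, hv, hδv⟩
    have h2 : cl U f c \ M₀ = cl U f c := by
      rw [Finset.sdiff_eq_self_iff_disjoint, Finset.disjoint_left]
      intro v hv hv'
      exact hex ⟨v, hv', (mem_cl.1 hv).2⟩
    rw [h1, h2, Finset.union_empty]
    exact ⟨rfl, hac⟩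

/-- a final class after the routing -/
theorem class_D (h : Route μ U f P I D M₀ δ) {c : ℕ} (hc : c ∈ D) (hcI : c ∉ I)
    (hP : ∀ p ∈ P, f p ≠ c) : ∃ m ∈ M₀ ∪ P, δ m = c ∧
      (M₀ ∪ P).filter (fun v => δ v = c) = {m} ∧ m ∉ cl U f c ∧ Ac μ (insert m (cl U f c)) := by
  obtain ⟨m, hm, hδm⟩ := h.full c hc
  refine ⟨m, hm, hδm, h.filter_eq hm hδm, ?_, ?_⟩
  · intro hmc
    rw [mem_cl] at hmc
    rw [Finset.mem_union] at hm
    rcases hm with hm | hm
    · exact hcI (hmc.2 ▸ h.col m hm)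
    · exact hP m hm hmc.2
  · have := h.mov m hm
    rw [hδm] at this
    exact this

/-- no vertex arrives at a class outside `I ∪ D` -/
theorem filter_out (h : Route μ U f P I D M₀ δ) {c : ℕ} (hc : c ∉ I) (hc' : c ∉ D) :
    (M₀ ∪ P).filter (fun v => δ v = c) = ∅ := by
  rw [Finset.filter_eq_empty_iff]
  intro v hv hδv
  have := h.dest v hv
  rw [hδv, Finset.mem_union] at this
  rcases this with h | h
  · exact hc h
  · exact hc' h

/-- no vertex of a class outside `I` is moved, except the tokens -/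
theorem sdiff_out (h : Route μ U f P I D M₀ δ) {c : ℕ} (hc : c ∉ I) :
    cl U f c \ M₀ = cl U f c := by
  rw [Finset.sdiff_eq_self_iff_disjoint, Finset.disjoint_left]
  intro v hv hv'
  exact hc ((mem_cl.1 hv).2 ▸ h.col v hv')

end Route

end Pool.Agent.H72.EAx
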