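import Pool.Agent.H72.EAx.Exch0

/-!
# The two-path exchange (with the structure of `P`, `Q` as hypotheses)
-/

set_option autoImplicit false
set_option linter.unusedSectionVars false

namespace Pool.Agent.H72.EAx

open Finset Pool.Agent.H25.EA

variable {V : Type*} [DecidableEq V]
variable {μ : V → V → ℕ} {s b : ℕ} {U : Finset V} {f : V → ℕ} {𝒜 : Finset ℕ} {r : ℕ}
  {J S : Finset ℕ}

theorem mem_tg {v : V} {c : ℕ} : c ∈ tg μ U f 𝒜 v ↔ c ∈ 𝒜 ∧ c ≠ f v ∧ mov μ U f v c := by
  classical
  unfold tg
  rw [Finset.mem_filter]

theorem mem_Fm {W : ℕ} {v : V} : v ∈ Fm μ U f 𝒜 W ↔ v ∈ cl U f W ∧ tg μ U f 𝒜 v ≠ ∅ := by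
  unfold Fm
  rw [Finset.mem_filter]

theorem mem_Tn {W : ℕ} {y v : V} :
    v ∈ Tn μ U f 𝒜 W y ↔ v ∈ Fm μ U f 𝒜 W ∧ 0 < μ y v := by
  unfold Tn
  rw [Finset.mem_filter]

/-- the number of elements of `Tn` -/
theorem card_Tn {W : ℕ} {y : V} (h1 : ∀ w ∈ Tn μ U f 𝒜 W y, μ y w = 1) :
    (Tn μ U f 𝒜 W y).card = ee μ y (Fm μ U f 𝒜 W) := by
  have h2 : ∑ w ∈ Tn μ U f 𝒜 W y, μ y w = ee μ y (Fm μ U f 𝒜 W) := by
    unfold ee Tn
    rw [Finset.sum_filter]
    refine Finset.sum_congr rfl ?_
    intro w _
    by_cases h : 0 < μ y w
    · rw [if_pos h]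
    · rw [if_neg h]; omega
  rw [← h2, Finset.sum_congr rfl h1]
  simp

/-- The choice of two tokens. -/
theorem choose_tokens {W X : ℕ} {y : V}
    (h2 : 2 ≤ (TS μ U f 𝒜 W y).card) (hT : 2 ≤ (Tn μ U f 𝒜 W y).card)
    (hreach : ∀ R ⊆ J.erase W, TS μ U f 𝒜 W y ∩ J ⊆ R →
      (∀ Y ∈ R, ∀ Y' ∈ J.erase W, arc μ U f Y Y' → Y' ∈ R) →
      X ∈ R ∨ X ∈ TS μ U f 𝒜 W y ∨ ∃ Y ∈ R, arc μ U f Y X) :
    ∃ p ∈ Tn μ U f 𝒜 W y, ∃ q ∈ Tn μ U f 𝒜 W y, p ≠ q ∧
      2 ≤ (tg μ U f 𝒜 p ∪ tg μ U f 𝒜 q).card ∧
      ∀ R ⊆ J.erase W, (tg μ U f 𝒜 p ∪ tg μ U f 𝒜 q) ∩ J ⊆ R →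
        (∀ Y ∈ R, ∀ Y' ∈ J.erase W, arc μ U f Y Y' → Y' ∈ R) →
        X ∈ R ∨ X ∈ tg μ U f 𝒜 p ∪ tg μ U f 𝒜 q ∨ ∃ Y ∈ R, arc μ U f Y X := by
  classical
  -- one good token
  have hgood : ∃ i ∈ Tn μ U f 𝒜 W y, ∀ R ⊆ J.erase W, tg μ U f 𝒜 i ∩ J ⊆ R →
      (∀ Y ∈ R, ∀ Y' ∈ J.erase W, arc μ U f Y Y' → Y' ∈ R) →
      X ∈ R ∨ X ∈ tg μ U f 𝒜 i ∨ ∃ Y ∈ R, arc μ U f Y X := by
    by_contra hno
    push Not at hno
    choose! R hRJ hRt hRc hRX hRtX hRa using hno
    have := hreach ((Tn μ U f 𝒜 W y).biUnion R) ?_ ?_ ?_
    · rcases this with h | h | ⟨Y, hY, ha⟩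
      · rw [Finset.mem_biUnion] at h
        obtain ⟨i, hi, h⟩ := h
        exact hRX i hi h
      · unfold TS at h
        rw [Finset.mem_biUnion] at h
        obtain ⟨i, hi, h⟩ := h
        exact hRtX i hi h
      · rw [Finset.mem_biUnion] at hY
        obtain ⟨i, hi, h⟩ := hY
        exact hRa i hi Y h ha
    · rw [Finset.biUnion_subset]
      exact fun i hi => hRJ i hi
    · intro c hc
      rw [Finset.mem_inter] at hc
      have hc1 := hc.1
      unfold TS at hc1
      rw [Finset.mem_biUnion] at hc1 ⊢
      obtain ⟨i, hi, h⟩ := hc1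
      exact ⟨i, hi, hRt i hi (Finset.mem_inter.2 ⟨h, hc.2⟩)⟩
    · intro Y hY Y' hY' ha
      rw [Finset.mem_biUnion] at hY ⊢
      obtain ⟨i, hi, h⟩ := hY
      exact ⟨i, hi, hRc i hi Y h Y' hY' ha⟩
  obtain ⟨i, hi, hgi⟩ := hgood
  have hmono : ∀ j, ∀ R ⊆ J.erase W, (tg μ U f 𝒜 i ∪ tg μ U f 𝒜 j) ∩ J ⊆ R →
      (∀ Y ∈ R, ∀ Y' ∈ J.erase W, arc μ U f Y Y' → Y' ∈ R) →
      X ∈ R ∨ X ∈ tg μ U f 𝒜 i ∪ tg μ U f 𝒜 j ∨ ∃ Y ∈ R, arc μ U f Y X := by
    intro j R hRJ hRt hRc
    rcases hgi R hRJ (fun c hc => hRt (by
      rw [Finset.mem_inter] at hc ⊢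
      exact ⟨Finset.mem_union_left _ hc.1, hc.2⟩)) hRc with h | h | h
    · exact Or.inl h
    · exact Or.inr (Or.inl (Finset.mem_union_left _ h))
    · exact Or.inr (Or.inr h)
  by_cases hc : 2 ≤ (tg μ U f 𝒜 i).card
  · obtain ⟨j, hj, hji⟩ := Finset.exists_mem_ne (by omega : 1 < (Tn μ U f 𝒜 W y).card) i
    exact ⟨i, hi, j, hj, hji.symm,
      hc.trans (Finset.card_le_card Finset.subset_union_left), hmono j⟩
  · have hex : ∃ j ∈ Tn μ U f 𝒜 W y, ¬ tg μ U f 𝒜 j ⊆ tg μ U f 𝒜 i := by
      by_contra hno
      push Not at hno
      have : TS μ U f 𝒜 W y ⊆ tg μ U f 𝒜 i := by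
        unfold TS
        rw [Finset.biUnion_subset]
        exact hno
      have := Finset.card_le_card this
      omega
    obtain ⟨j, hj, hji⟩ := hex
    refine ⟨i, hi, j, hj, ?_, ?_, hmono j⟩
    · rintro rfl
      exact hji (Finset.Subset.refl _)
    · rw [Finset.not_subset] at hji
      obtain ⟨c, hc1, hc2⟩ := hji
      have hne : (tg μ U f 𝒜 i).Nonempty := by
        rw [Finset.nonempty_iff_ne_empty]
        exact (mem_Fm.1 (mem_Tn.1 hi).1).2
      have h3 : insert c (tg μ U f 𝒜 i) ⊆ tg μ U f 𝒜 i ∪ tg μ U f 𝒜 j := by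
        intro d hd
        rw [Finset.mem_insert] at hd
        rw [Finset.mem_union]
        rcases hd with rfl | hd
        · exact Or.inr hc1
        · exact Or.inl hd
      have h4 := Finset.card_le_card h3
      rw [Finset.card_insert_of_notMem hc2] at h4
      have := Finset.card_pos.2 hne
      omega

/-- The two-path exchange, with the structure of the vertices `P`, `Q` as hypotheses. -/
theorem TT0 (h : Setup μ s b U f 𝒜 r) (hR : Region (arc μ U f) 𝒜 r J S) {W X : ℕ} (hW : W ∈ J)
    (hX : X ∈ 𝒜) (hXr : X ≠ r) (hXW : X ≠ W) (hNo : NoCl (arc μ U f) 𝒜 r {W, X})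
    {y : V} (hy : y ∈ BB U f 𝒜) (hPQ : IsP μ U f 𝒜 W y ∨ IsQ μ U f 𝒜 W y)
    (hone : ∀ w ∈ Tn μ U f 𝒜 W y, μ y w = 1)
    (hle : ∀ p ∈ Tn μ U f 𝒜 W y, ∀ q ∈ Tn μ U f 𝒜 W y, p ≠ q →
      ee μ y (((cl U f W).erase p).erase q) ≤ 1)
    (h2 : 2 ≤ (TS μ U f 𝒜 W y).card)
    (hreach : ∀ R ⊆ J.erase W, TS μ U f 𝒜 W y ∩ J ⊆ R →
      (∀ Y ∈ R, ∀ Y' ∈ J.erase W, arc μ U f Y Y' → Y' ∈ R) →
      X ∈ R ∨ X ∈ TS μ U f 𝒜 W y ∨ ∃ Y ∈ R, arc μ U f Y X) :
    ∀ x ∈ cl U f X, 2 ≤ ee μ x (cl U f W) + μ x y := by
  classical
  intro x hx
  by_contra hlt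
  have hWA : W ∈ 𝒜 := hR.sub hW
  have hWr : W ≠ r := fun e => hR.r_notMem (e ▸ hW)
  have hT : 2 ≤ (Tn μ U f 𝒜 W y).card := by
    rw [card_Tn hone]
    rcases hPQ with h | h
    · have := h.2; omega
    · have := h.2; omega
  obtain ⟨p, hp, q, hq, hpq, hcard, hre⟩ := choose_tokens h2 hT hreach
  have hpW : p ∈ cl U f W := (mem_Fm.1 (mem_Tn.1 hp).1).1
  have hqW : q ∈ cl U f W := (mem_Fm.1 (mem_Tn.1 hq).1).1
  have hptg : (tg μ U f 𝒜 p).Nonempty :=
    Finset.nonempty_iff_ne_empty.2 (mem_Fm.1 (mem_Tn.1 hp).1).2
  have hqtg : (tg μ U f 𝒜 q).Nonempty :=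
    Finset.nonempty_iff_ne_empty.2 (mem_Fm.1 (mem_Tn.1 hq).1).2
  have hfp : f p = W := (mem_cl.1 hpW).2
  have hfq : f q = W := (mem_cl.1 hqW).2
  have hrA := h.r_mem
  -- the classes between
  set I : Finset ℕ := 𝒜 \ {W, X, r} with hI
  have memI : ∀ c, c ∈ I ↔ c ∈ 𝒜 ∧ c ≠ W ∧ c ≠ X ∧ c ≠ r := by
    intro c; rw [hI]; simp
  have hroute : ∃ M₀ δ, Route μ U f {p, q} I {X, r} M₀ δ := by
    apply route_of_hall
    · rw [Finset.disjoint_left]
      intro c hc hc'
      rw [memI] at hc
      rw [Finset.mem_insert, Finset.mem_singleton] at hc'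
      rcases hc' with e | e
      · exact hc.2.2.1 e
      · exact hc.2.2.2 e
    · intro v hv
      rw [Finset.mem_insert, Finset.mem_singleton] at hv
      rw [memI]
      rcases hv with rfl | rfl
      · rw [hfp]; exact fun h => h.2.1 rfl
      · rw [hfq]; exact fun h => h.2.1 rfl
    · rw [Finset.card_pair hpq, Finset.card_pair hXr]
    · intro R hRI
      by_contra hlt'
      push Not at hlt'
      -- the sets of the proof
      set L : Finset ℕ := I \ R with hL
      set L' : Finset ℕ := {u ∈ L | ∃ c ∈ R, arc μ U f u c} with hL'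
      set P' : Finset V := {v ∈ ({p, q} : Finset V) | ∃ c ∈ R, mov μ U f v c} with hP'
      have hN : {u ∈ I | u ∈ R ∨ ∃ c ∈ R, arc μ U f u c} = (R ∩ I) ∪ L' := by
        ext u
        simp only [hL', hL, Finset.mem_filter, Finset.mem_union, Finset.mem_inter,
          Finset.mem_sdiff]
        tauto
      have hNd : Disjoint (R ∩ I) L' := by
        rw [Finset.disjoint_left]
        intro u hu hu'
        rw [Finset.mem_inter] at hu
        rw [hL', Finset.mem_filter, hL, Finset.mem_sdiff] at hu'
        exact hu'.1.2 hu.1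
      rw [hN, Finset.card_union_of_disjoint hNd] at hlt'
      have hRsplit : R.card = (R ∩ I).card + (R ∩ {X, r}).card := by
        rw [← Finset.card_union_of_disjoint]
        · congr 1
          ext u
          rw [Finset.mem_union, Finset.mem_inter, Finset.mem_inter]
          constructor
          · intro hu
            have := hRI hu
            rw [Finset.mem_union] at this
            rcases this with h | h
            · exact Or.inl ⟨hu, h⟩
            · exact Or.inr ⟨hu, h⟩
          · rintro (h | h)
            · exact h.1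
            · exact h.1
        · rw [Finset.disjoint_left]
          intro c hc hc'
          rw [Finset.mem_inter, memI] at hc
          rw [Finset.mem_inter, Finset.mem_insert, Finset.mem_singleton] at hc'
          rcases hc'.2 with e | e
          · exact hc.2.2.2.1 e
          · exact hc.2.2.2.2 e
      have hkey : L'.card + P'.card < (R ∩ {X, r}).card := by omega
      -- every class outside W is in L or R or in {X, r}
      have hcover : ∀ c ∈ 𝒜, c ≠ W → c ∉ L → c ≠ X → c ≠ r → c ∈ R := by
        intro c hc h1 h2 h3 h4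
        by_contra h5
        apply h2
        rw [hL, Finset.mem_sdiff, memI]
        exact ⟨⟨hc, h1, h3, h4⟩, h5⟩
      have hLmem : ∀ c, c ∈ L ↔ (c ∈ 𝒜 ∧ c ≠ W ∧ c ≠ X ∧ c ≠ r) ∧ c ∉ R := by
        intro c; rw [hL, Finset.mem_sdiff, memI]
      have hmem' : ∀ u ∈ L, ∀ c ∈ R, arc μ U f u c → u ∈ L' := by
        intro u hu c hc ha
        rw [hL', Finset.mem_filter]
        exact ⟨hu, c, hc, ha⟩
      have hTGno : P' = ∅ → ∀ c ∈ tg μ U f 𝒜 p ∪ tg μ U f 𝒜 q, c ∈ 𝒜 ∧ c ≠ W ∧ c ∉ R := by
        intro hP0 c hc
        rw [Finset.mem_union, mem_tg, mem_tg, hfp, hfq] at hc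
        have h1 : c ∈ 𝒜 ∧ c ≠ W := by
          rcases hc with h | h
          · exact ⟨h.1, h.2.1⟩
          · exact ⟨h.1, h.2.1⟩
        refine ⟨h1.1, h1.2, ?_⟩
        intro hcR
        rw [hP', Finset.filter_eq_empty_iff] at hP0
        rcases hc with h | h
        · exact hP0 (Finset.mem_insert_self p _) ⟨c, hcR, h.2.2⟩
        · exact hP0 (Finset.mem_insert_of_mem (Finset.mem_singleton_self q)) ⟨c, hcR, h.2.2⟩
      -- the contradiction from reachability
      have hreachC : X ∈ R → P' = ∅ → (∀ c ∈ L', c ∉ J) → False := by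
        intro hXR hP0 hLJ
        have := hre (L ∩ J) ?_ ?_ ?_
        · rcases this with h | h | ⟨Y, hY, ha⟩
          · rw [Finset.mem_inter, hLmem] at h
            exact h.1.2 hXR
          · exact (hTGno hP0 X h).2.2 hXR
          · rw [Finset.mem_inter] at hY
            exact hLJ Y (hmem' Y hY.1 X hXR ha) hY.2
        · intro c hc
          rw [Finset.mem_inter, hLmem] at hc
          rw [Finset.mem_erase]
          exact ⟨hc.1.1.2.1, hc.2⟩
        · intro c hc
          rw [Finset.mem_inter] at hc
          obtain ⟨h1, h2, h3⟩ := hTGno hP0 c hc.1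
          rw [Finset.mem_inter, hLmem]
          refine ⟨⟨⟨h1, h2, ?_, ?_⟩, h3⟩, hc.2⟩
          · rintro rfl; exact h3 hXR
          · rintro rfl; exact hR.r_notMem hc.2
        · intro Y hY Y' hY' ha
          rw [Finset.mem_inter] at hY ⊢
          rw [Finset.mem_erase] at hY'
          have h3 : Y' ∉ R := fun h3 => hLJ Y (hmem' Y hY.1 Y' h3 ha) hY.2
          refine ⟨?_, hY'.2⟩
          rw [hLmem]
          refine ⟨⟨hR.sub hY'.2, hY'.1, ?_, ?_⟩, h3⟩
          · rintro rfl; exact h3 hXR
          · rintro rfl; exact hR.r_notMem hY'.2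
      by_cases hXR : X ∈ R
      · by_cases hrR : r ∈ R
        · -- both
          have hc2 : (R ∩ {X, r}).card ≤ 2 := by
            refine (Finset.card_le_card Finset.inter_subset_right).trans ?_
            exact Finset.card_le_two
          by_cases hL0 : L' = ∅
          · -- one of the tokens has no target in R
            have hP1 : P'.card ≤ 1 := by rw [hL0] at hkey; simp at hkey; omega
            have hex : ∃ v ∈ ({p, q} : Finset V), v ∉ P' := by
              by_contra hno
              push Not at hno
              have := Finset.card_le_card (show ({p, q} : Finset V) ⊆ P' from hno)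
              rw [Finset.card_pair hpq] at this
              omega
            obtain ⟨v, hv, hvP⟩ := hex
            have hvW : f v = W := by
              rw [Finset.mem_insert, Finset.mem_singleton] at hv
              rcases hv with rfl | rfl
              · exact hfp
              · exact hfq
            have hvtg : (tg μ U f 𝒜 v).Nonempty := by
              rw [Finset.mem_insert, Finset.mem_singleton] at hv
              rcases hv with rfl | rfl
              · exact hptg
              · exact hqtg
            obtain ⟨c, hc⟩ := hvtg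
            rw [mem_tg, hvW] at hc
            have hcR : c ∉ R := by
              intro hcR
              apply hvP
              rw [hP', Finset.mem_filter]
              exact ⟨hv, c, hcR, hc.2.2⟩
            have hcL : c ∈ L := by
              rw [hLmem]
              refine ⟨⟨hc.1, hc.2.1, ?_, ?_⟩, hcR⟩
              · rintro rfl; exact hcR hXR
              · rintro rfl; exact hcR hrR
            have htW : NoCl (arc μ U f) 𝒜 r {W} := by
              have := hR.term W hW W hW
              simpa using this
            obtain ⟨u, hu, z, hz, hzL, hzW, ha⟩ := htW L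
              (fun c hc => ((hLmem c).1 hc).1.1)
              (by
                rw [Finset.disjoint_singleton_right]
                intro hWL
                exact ((hLmem W).1 hWL).1.2.1 rfl)
              (fun hrL => ((hLmem r).1 hrL).1.2.2.2 rfl) ⟨c, hcL⟩
            rw [Finset.mem_singleton] at hzW
            have hzR : z ∈ R := by
              by_cases h1 : z = X
              · rw [h1]; exact hXR
              · by_cases h2 : z = r
                · rw [h2]; exact hrR
                · exact hcover z hz hzW hzL h1 h2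
            have := hmem' u hu z hzR ha
            rw [hL0] at this
            exact absurd this (Finset.notMem_empty _)
          · obtain ⟨c, hc⟩ := Finset.nonempty_iff_ne_empty.2 hL0
            have hLpos := Finset.card_pos.2 ⟨c, hc⟩
            have hP0 : P' = ∅ := by
              rw [← Finset.card_eq_zero]; omega
            have hL1 : L'.card = 1 := by omega
            have hLc : ∀ d ∈ L', d = c := by
              intro d hd
              exact Finset.card_le_one.1 hL1.le d hd c hc
            by_cases hcJ : c ∈ J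
            · have hTGL : tg μ U f 𝒜 p ∪ tg μ U f 𝒜 q ⊆ L := by
                intro d hd
                obtain ⟨h1, h2, h3⟩ := hTGno hP0 d hd
                rw [hLmem]
                refine ⟨⟨h1, h2, ?_, ?_⟩, h3⟩
                · rintro rfl; exact h3 hXR
                · rintro rfl; exact h3 hrR
              have hL2 : 1 < L.card := by
                have := Finset.card_le_card hTGL
                omega
              obtain ⟨d, hd, hdc⟩ := Finset.exists_mem_ne hL2 c
              obtain ⟨u, hu, z, hz, hzL, hzW, ha⟩ := hR.term W hW c hcJ (L.erase c)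
                (fun c hc => ((hLmem c).1 (Finset.mem_of_mem_erase hc)).1.1)
                (by
                  rw [Finset.disjoint_left]
                  intro e he he'
                  rw [Finset.mem_erase] at he
                  rw [Finset.mem_insert, Finset.mem_singleton] at he'
                  rcases he' with e1 | e1
                  · exact ((hLmem e).1 he.2).1.2.1 e1
                  · exact he.1 e1)
                (fun hrL => ((hLmem r).1 (Finset.mem_of_mem_erase hrL)).1.2.2.2 rfl)
                ⟨d, Finset.mem_erase.2 ⟨hdc, hd⟩⟩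
              rw [Finset.mem_insert, Finset.mem_singleton, not_or] at hzW
              rw [Finset.mem_erase] at hu
              have hzR : z ∈ R := by
                by_cases h1 : z = X
                · rw [h1]; exact hXR
                · by_cases h2 : z = r
                  · rw [h2]; exact hrR
                  · apply hcover z hz hzW.1 ?_ h1 h2
                    intro hzL'
                    exact hzL (Finset.mem_erase.2 ⟨hzW.2, hzL'⟩)
              exact hu.1 (hLc u (hmem' u hu.2 z hzR ha))
            · apply hreachC hXR hP0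
              intro d hd
              rw [hLc d hd]
              exact hcJ
        · -- only X
          have hc1 : (R ∩ {X, r}).card ≤ 1 := by
            rw [Finset.card_le_one]
            intro a ha a' ha'
            rw [Finset.mem_inter, Finset.mem_insert, Finset.mem_singleton] at ha ha'
            rcases ha.2 with e | e
            · rcases ha'.2 with e' | e'
              · rw [e, e']
              · exact absurd (e' ▸ ha'.1) hrR
            · exact absurd (e ▸ ha.1) hrR
          have hL0 : L' = ∅ := by rw [← Finset.card_eq_zero]; omega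
          have hP0 : P' = ∅ := by rw [← Finset.card_eq_zero]; omega
          apply hreachC hXR hP0
          intro d hd
          rw [hL0] at hd
          exact absurd hd (Finset.notMem_empty _)
      · by_cases hrR : r ∈ R
        · have hc1 : (R ∩ {X, r}).card ≤ 1 := by
            rw [Finset.card_le_one]
            intro a ha a' ha'
            rw [Finset.mem_inter, Finset.mem_insert, Finset.mem_singleton] at ha ha'
            rcases ha.2 with e | e
            · exact absurd (e ▸ ha.1) hXR
            · rcases ha'.2 with e' | e'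
              · exact absurd (e' ▸ ha'.1) hXR
              · rw [e, e']
          have hL0 : L' = ∅ := by rw [← Finset.card_eq_zero]; omega
          have hP0 : P' = ∅ := by rw [← Finset.card_eq_zero]; omega
          obtain ⟨d, hd, hdX⟩ := Finset.exists_mem_ne (by omega :
            1 < (tg μ U f 𝒜 p ∪ tg μ U f 𝒜 q).card) X
          obtain ⟨h1, h2, h3⟩ := hTGno hP0 d hd
          have hdL : d ∈ L := by
            rw [hLmem]
            refine ⟨⟨h1, h2, hdX, ?_⟩, h3⟩
            rintro rfl
            exact h3 hrR
          obtain ⟨u, hu, z, hz, hzL, hzW, ha⟩ := hNo L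
            (fun c hc => ((hLmem c).1 hc).1.1)
            (by
              rw [Finset.disjoint_left]
              intro e he he'
              rw [Finset.mem_insert, Finset.mem_singleton] at he'
              rcases he' with e1 | e1
              · exact ((hLmem e).1 he).1.2.1 e1
              · exact ((hLmem e).1 he).1.2.2.1 e1)
            (fun hrL => ((hLmem r).1 hrL).1.2.2.2 rfl) ⟨d, hdL⟩
          rw [Finset.mem_insert, Finset.mem_singleton, not_or] at hzW
          have hzR : z ∈ R := by
            by_cases h2 : z = r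
            · rw [h2]; exact hrR
            · exact hcover z hz hzW.1 hzL hzW.2 h2
          have := hmem' u hu z hzR ha
          rw [hL0] at this
          exact absurd this (Finset.notMem_empty _)
        · have : R ∩ {X, r} = ∅ := by
            ext a
            rw [Finset.mem_inter, Finset.mem_insert, Finset.mem_singleton]
            constructor
            · rintro ⟨h1, e | e⟩
              · exact absurd (e ▸ h1) hXR
              · exact absurd (e ▸ h1) hrR
            · intro h
              exact absurd h (Finset.notMem_empty _)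
          rw [this, Finset.card_empty] at hkey
          omega
  -- the recolouring
  obtain ⟨M₀, δ, hRt⟩ := hroute
  have hyU := (mem_BB.1 hy).1
  have hyA := (mem_BB.1 hy).2
  have hxU := (mem_cl.1 hx).1
  have hfx := (mem_cl.1 hx).2
  have hWI : W ∉ I := fun h => ((memI W).1 h).2.1 rfl
  have hXI : X ∉ I := fun h => ((memI X).1 h).2.2.1 rfl
  have hrI : r ∉ I := fun h => ((memI r).1 h).2.2.2 rfl
  have hpU := (mem_cl.1 hpW).1
  have hqU := (mem_cl.1 hqW).1
  have hy_notin : y ∉ M₀ ∪ {p, q} := by
    rw [Finset.mem_union, Finset.mem_insert, Finset.mem_singleton]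
    rintro (h1 | rfl | rfl)
    · exact hyA ((memI _).1 (hRt.col y h1)).1
    · rw [hfp] at hyA; exact hyA hWA
    · rw [hfq] at hyA; exact hyA hWA
  have hx_notin : x ∉ M₀ ∪ {p, q} := by
    rw [Finset.mem_union, Finset.mem_insert, Finset.mem_singleton]
    rintro (h1 | rfl | rfl)
    · have := ((memI _).1 (hRt.col x h1)).2.2.1
      exact this hfx
    · rw [hfp] at hfx; exact hXW hfx.symm
    · rw [hfq] at hfx; exact hXW hfx.symm
  have hxy : x ≠ y := by
    rintro rfl
    rw [hfx] at hyA
    exact hyA hX
  set M : Finset V := (M₀ ∪ {p, q}) ∪ {y, x} with hM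
  set δ' : V → ℕ := fun v => if v = y ∨ v = x then W else δ v with hδ'
  have memM : ∀ v, v ∈ M ↔ v ∈ M₀ ∪ {p, q} ∨ v = y ∨ v = x := by
    intro v
    rw [hM, Finset.mem_union, Finset.mem_insert, Finset.mem_singleton]
  have hδy : δ' y = W := by simp [hδ']
  have hδx : δ' x = W := by simp [hδ']
  have hδ0 : ∀ v ∈ M₀ ∪ {p, q}, δ' v = δ v := by
    intro v hv
    have h1 : v ≠ y := by rintro rfl; exact hy_notin hv
    have h2 : v ≠ x := by rintro rfl; exact hx_notin hv
    simp [hδ', h1, h2]
  have hfilt : ∀ c, c ≠ W → M.filter (fun v => δ' v = c) =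
      (M₀ ∪ {p, q}).filter (fun v => δ v = c) := by
    intro c hc
    ext v
    rw [Finset.mem_filter, Finset.mem_filter, memM]
    constructor
    · rintro ⟨h1 | rfl | rfl, h2⟩
      · exact ⟨h1, by rw [← hδ0 v h1]; exact h2⟩
      · exact absurd (h2.symm.trans hδy) hc
      · exact absurd (h2.symm.trans hδx) hc
    · rintro ⟨h1, h2⟩
      exact ⟨Or.inl h1, by rw [hδ0 v h1]; exact h2⟩
  have hPcol : ∀ c, c ≠ W → ∀ v ∈ ({p, q} : Finset V), f v ≠ c := by
    intro c hc v hv
    rw [Finset.mem_insert, Finset.mem_singleton] at hv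
    rcases hv with rfl | rfl
    · rw [hfp]; exact hc.symm
    · rw [hfq]; exact hc.symm
  refine recolour h M ∅ δ' ?_ ?_ ?_ ?_
  · intro v hv
    rw [memM, Finset.mem_union, Finset.mem_insert, Finset.mem_singleton] at hv
    rcases hv with (h1 | rfl | rfl) | rfl | rfl
    · exact hRt.sub h1
    · exact hpU
    · exact hqU
    · exact hyU
    · exact hxU
  · intro v hv
    rw [memM] at hv
    rcases hv with h1 | rfl | rfl
    · rw [hδ0 v h1]
      have := hRt.dest v h1
      rw [Finset.mem_union, memI, Finset.mem_insert, Finset.mem_singleton] at this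
      rcases this with h | h | h
      · exact h.1
      · rw [h]; exact hX
      · rw [h]; exact hrA
    · rw [hδy]; exact hWA
    · rw [hδx]; exact hWA
  · intro c hc
    rw [Finset.union_empty]
    by_cases hcW : c = W
    · subst hcW
      have h1 : M.filter (fun v => δ' v = c) = {y, x} := by
        ext v
        rw [Finset.mem_filter, memM, Finset.mem_insert, Finset.mem_singleton]
        constructor
        · rintro ⟨h1 | h1, h2⟩
          · exfalso
            rw [hδ0 v h1] at h2
            have := hRt.dest v h1
            rw [h2, Finset.mem_union, Finset.mem_insert, Finset.mem_singleton] at this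
            rcases this with h | h | h
            · exact hWI h
            · exact hXW h.symm
            · exact hWr h
          · exact h1
        · rintro (rfl | rfl)
          · exact ⟨Or.inr (Or.inl rfl), hδy⟩
          · exact ⟨Or.inr (Or.inr rfl), hδx⟩
      have h2 : cl U f c \ M = ((cl U f c).erase p).erase q := by
        ext v
        rw [Finset.mem_sdiff, memM, Finset.mem_erase, Finset.mem_erase, Finset.mem_union,
          Finset.mem_insert, Finset.mem_singleton]
        constructor
        · rintro ⟨h1, h2⟩
          exact ⟨fun e => h2 (Or.inl (Or.inr (Or.inr e))),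
            fun e => h2 (Or.inl (Or.inr (Or.inl e))), h1⟩
        · rintro ⟨h1, h2, h3⟩
          refine ⟨h3, ?_⟩
          rintro ((h4 | h4 | h4) | h4 | h4)
          · exact hWI ((mem_cl.1 h3).2 ▸ hRt.col v h4)
          · exact h2 h4
          · exact h1 h4
          · rw [h4] at h3
            exact hyA ((mem_cl.1 h3).2 ▸ hWA)
          · rw [h4] at h3
            exact hXW (hfx.symm.trans (mem_cl.1 h3).2)
      rw [h1, h2]
      have hqe : q ∈ (cl U f c).erase p := Finset.mem_erase.2 ⟨hpq.symm, hqW⟩
      have hyn : y ∉ ((cl U f c).erase p).erase q := by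
        intro h3
        have := mem_cl.1 (Finset.mem_of_mem_erase (Finset.mem_of_mem_erase h3))
        exact hyA (this.2 ▸ hWA)
      have hxn : x ∉ ((cl U f c).erase p).erase q := by
        intro h3
        have := mem_cl.1 (Finset.mem_of_mem_erase (Finset.mem_of_mem_erase h3))
        exact hXW (hfx.symm.trans this.2)
      have h3 : ((cl U f c).erase p).erase q ∪ {y, x} =
          insert x (insert y (((cl U f c).erase p).erase q)) := by
        ext v
        simp only [Finset.mem_union, Finset.mem_insert, Finset.mem_singleton]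
        tauto
      rw [h3]
      have hxn' : x ∉ insert y (((cl U f c).erase p).erase q) := by
        rw [Finset.mem_insert, not_or]
        exact ⟨hxy, hxn⟩
      constructor
      · rw [Finset.card_insert_of_notMem hxn', Finset.card_insert_of_notMem hyn,
          Finset.card_erase_of_mem hqe, Finset.card_erase_of_mem hpW, h.card_cl c hWA hWr]
        have h4 := Finset.card_pos.2 ⟨q, hqe⟩
        rw [Finset.card_erase_of_mem hpW, h.card_cl c hWA hWr] at h4
        omega
      · apply Ac.insert0 h.mg
        · apply Ac.insert0 h.mg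
          · exact Ac.mono0 (h.ac c hWA)
              ((Finset.erase_subset _ _).trans (Finset.erase_subset _ _))
          · exact hle p hp q hq hpq
        · have h4 : ee μ x (insert y (((cl U f c).erase p).erase q)) =
              μ x y + ee μ x (((cl U f c).erase p).erase q) := by
            unfold ee
            rw [Finset.sum_insert hyn]
          have h5 : ee μ x (((cl U f c).erase p).erase q) ≤ ee μ x (cl U f c) :=
            ee_mono0 ((Finset.erase_subset _ _).trans (Finset.erase_subset _ _))
          omega
    · rw [hfilt c hcW]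
      by_cases hcI : c ∈ I
      · have h1 : cl U f c \ M = cl U f c \ M₀ := by
          ext v
          rw [Finset.mem_sdiff, Finset.mem_sdiff, memM, Finset.mem_union, Finset.mem_insert,
            Finset.mem_singleton]
          constructor
          · rintro ⟨h1, h2⟩
            exact ⟨h1, fun h3 => h2 (Or.inl (Or.inl h3))⟩
          · rintro ⟨h1, h2⟩
            refine ⟨h1, ?_⟩
            have h3 := (mem_cl.1 h1).2
            rintro ((h4 | h4 | h4) | h4 | h4)
            · exact h2 h4
            · rw [h4, hfp] at h3; exact hcW h3.symm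
            · rw [h4, hfq] at h3; exact hcW h3.symm
            · rw [h4] at h3; exact hyA (h3 ▸ hc)
            · rw [h4, hfx] at h3; exact hXI (h3 ▸ hcI)
        rw [h1]
        obtain ⟨h2, h3⟩ := hRt.class_I hcI (hPcol c hcW) (h.ac c hc)
        rw [h2]
        exact ⟨h.card_cl c hc ((memI c).1 hcI).2.2.2, h3⟩
      · have hcD : c ∈ ({X, r} : Finset ℕ) := by
          rw [Finset.mem_insert, Finset.mem_singleton]
          by_contra hno
          rw [not_or] at hno
          exact hcI ((memI c).2 ⟨hc, hcW, hno.1, hno.2⟩)
        obtain ⟨m, hm, hδm, hflt, hmc, hacm⟩ := hRt.class_D hcD hcI (hPcol c hcW)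
        rw [hflt]
        rw [Finset.mem_insert, Finset.mem_singleton] at hcD
        by_cases hcX : c = X
        · have h1 : cl U f c \ M = (cl U f c).erase x := by
            ext v
            rw [Finset.mem_sdiff, memM, Finset.mem_erase, Finset.mem_union,
              Finset.mem_insert, Finset.mem_singleton]
            constructor
            · rintro ⟨h1, h2⟩
              exact ⟨fun e => h2 (Or.inr (Or.inr e)), h1⟩
            · rintro ⟨h1, h2⟩
              refine ⟨h2, ?_⟩
              have h3 := (mem_cl.1 h2).2
              rintro ((h4 | h4 | h4) | h4 | h4)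
              · exact hcI (h3 ▸ hRt.col v h4)
              · rw [h4, hfp] at h3; exact hcW h3.symm
              · rw [h4, hfq] at h3; exact hcW h3.symm
              · rw [h4] at h3; exact hyA (h3 ▸ hc)
              · exact h1 h4
          have hxc : x ∈ cl U f c := by rw [hcX]; exact hx
          rw [h1]
          constructor
          · rw [Finset.card_union_of_disjoint, Finset.card_singleton,
              Finset.card_erase_add_one hxc, h.card_cl c hc (by rw [hcX]; exact hXr)]
            rw [Finset.disjoint_singleton_right]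
            exact fun h => hmc (Finset.mem_of_mem_erase h)
          · refine Ac.mono0 hacm ?_
            intro v hv
            rw [Finset.mem_union, Finset.mem_singleton] at hv
            rw [Finset.mem_insert]
            rcases hv with hv | hv
            · exact Or.inr (Finset.mem_of_mem_erase hv)
            · exact Or.inl hv
        · have hcr : c = r := hcD.resolve_left hcX
          have h1 : cl U f c \ M = cl U f c := by
            rw [Finset.sdiff_eq_self_iff_disjoint, Finset.disjoint_left]
            intro v hv hv'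
            have h3 := (mem_cl.1 hv).2
            rw [memM, Finset.mem_union, Finset.mem_insert, Finset.mem_singleton] at hv'
            rcases hv' with (h4 | h4 | h4) | h4 | h4
            · exact hcI (h3 ▸ hRt.col v h4)
            · rw [h4, hfp] at h3; exact hcW h3.symm
            · rw [h4, hfq] at h3; exact hcW h3.symm
            · rw [h4] at h3; exact hyA (h3 ▸ hc)
            · rw [h4, hfx] at h3; exact hcX h3.symm
          rw [h1]
          constructor
          · rw [Finset.card_union_of_disjoint, Finset.card_singleton, hcr, h.card_r]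
            rw [Finset.disjoint_singleton_right]
            exact hmc
          · refine Ac.mono0 hacm ?_
            intro v hv
            rw [Finset.mem_union, Finset.mem_singleton] at hv
            rw [Finset.mem_insert]
            exact hv.symm
  · have hsub : U \ ((AA U f 𝒜 \ ∅) ∪ M) ⊆ BB U f 𝒜 := by
      intro v hv
      rw [Finset.mem_sdiff, Finset.mem_union, Finset.sdiff_empty, mem_AA, not_or] at hv
      rw [mem_BB]
      exact ⟨hv.1, fun h3 => hv.2.1 ⟨hv.1, h3⟩⟩
    intro v hv
    have h1 := BB_deg h (hsub hv)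
    have h3 : ee μ v (U \ ((AA U f 𝒜 \ ∅) ∪ M)) ≤ ee μ v (BB U f 𝒜) := ee_mono0 hsub
    omega

end Pool.Agent.H72.EAx
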